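import Pool.Agent.Helper19.RD.Stmts8

/-! Row SP2 of the eighth form of project RD: few primes of `q` up to `Z` are split. -/

set_option autoImplicit false

namespace Pool.Agent.Helper41.RD8

open Finset Pool.Agent.Helper18.RD Pool.Agent.Helper19.RD

theorem count_dvd (Q : Finset ℕ) (hQ : ∀ p ∈ Q, p.Prime) (X : ℤ) (hX : X ≠ 0) :
    2 ^ (Q.filter (fun p : ℕ => (p : ℤ) ∣ X)).card ≤ X.natAbs := by
  classical
  have h0 : X.natAbs ≠ 0 := Int.natAbs_ne_zero.2 hX
  have hsub : Q.filter (fun p : ℕ => (p : ℤ) ∣ X) ⊆ X.natAbs.primeFactors := by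
    intro p hp
    rw [mem_filter] at hp
    rw [Nat.mem_primeFactors]
    exact ⟨hQ p hp.1, Int.natCast_dvd.1 hp.2, h0⟩
  calc 2 ^ (Q.filter (fun p : ℕ => (p : ℤ) ∣ X)).card ≤ 2 ^ X.natAbs.primeFactors.card :=
        Nat.pow_le_pow_right (by norm_num) (card_le_card hsub)
    _ = ∏ _p ∈ X.natAbs.primeFactors, 2 := by rw [prod_const]
    _ ≤ ∏ p ∈ X.natAbs.primeFactors, p :=
        prod_le_prod (fun _ _ => Nat.zero_le _)
          (fun p hp => (Nat.prime_of_mem_primeFactors hp).two_le)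
    _ ≤ X.natAbs := Nat.le_of_dvd (Nat.pos_of_ne_zero h0) (Nat.prod_primeFactors_dvd _)

theorem count_real (Q : Finset ℕ) (hQ : ∀ p ∈ Q, p.Prime) (X : ℤ) (hX : X ≠ 0) (B : ℝ)
    (hB : |(X : ℝ)| ≤ B) :
    ((Q.filter (fun p : ℕ => (p : ℤ) ∣ X)).card : ℝ) * Real.log 2 ≤ Real.log B := by
  have h1 := count_dvd Q hQ X hX
  have h2 : ((2 : ℝ) ^ (Q.filter (fun p : ℕ => (p : ℤ) ∣ X)).card) ≤ B := by
    have h3 : ((2 ^ (Q.filter (fun p : ℕ => (p : ℤ) ∣ X)).card : ℕ) : ℝ) ≤
        ((X.natAbs : ℕ) : ℝ) := by exact_mod_cast h1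
    rw [Nat.cast_natAbs, Int.cast_abs] at h3
    push_cast at h3
    linarith
  have h3 := Real.log_le_log (by positivity) h2
  rwa [Real.log_pow] at h3

theorem abs_jac (a : ℤ) (b : ℕ) : |jacobiSym a b| ≤ 1 := by
  rcases jacobiSym.trichotomy a b with h | h | h <;> simp [h]

theorem jac_sq (p : ℕ) (hp : p.Prime) (a : ℤ) (ha : IsSquare a) (hd : ¬ (p : ℤ) ∣ a) :
    jacobiSym a p = 1 := by
  obtain ⟨r, rfl⟩ := ha
  have hr : ¬ (p : ℤ) ∣ r := fun h => hd (h.mul_right r)
  rw [jacobiSym.mul_left, ← sq]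
  apply jacobiSym.sq_one
  have h1 : Nat.Coprime p r.natAbs :=
    (Nat.Prime.coprime_iff_not_dvd hp).2 (fun h : p ∣ r.natAbs => hr (Int.natCast_dvd.2 h))
  have h2 : Nat.gcd r.natAbs (p : ℤ).natAbs = 1 := by
    rw [Int.natAbs_natCast]; exact h1.symm
  exact h2

/-- off-diagonal pairs congruent modulo `p` -/
def Cl (J : Finset ℕ) (p : ℕ) : Finset (ℕ × ℕ) :=
  (J ×ˢ J).filter (fun z => z.1 ≠ z.2 ∧ (p : ℤ) ∣ (z.1 : ℤ) - z.2)

/-- the points other than `y` congruent to `y` modulo `p` -/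
def Cy (J : Finset ℕ) (y p : ℕ) : Finset ℕ :=
  J.filter (fun i => i ≠ y ∧ (p : ℤ) ∣ (i : ℤ) - y)

theorem alg (m1 jk jxy fi fj jiy jxj jij jc jd : ℤ) (hc : jc = m1 * fi * fj)
    (h1 : jc * jij = jk * jd) (h2 : jij * jiy * jxj * jxy = 1) (hm : m1 ^ 2 = 1)
    (hi : fi ^ 2 = 1) (hj : fj ^ 2 = 1) :
    m1 * jk * jxy * (jd * (fi * jiy) * (fj * jxj)) = 1 := by
  have h3 : m1 * jk * jxy * (jd * (fi * jiy) * (fj * jxj)) =
      m1 * jxy * fi * jiy * fj * jxj * (jk * jd) := by ring
  rw [h3, ← h1, hc]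
  have h4 : m1 * jxy * fi * jiy * fj * jxj * (m1 * fi * fj * jij) =
      m1 ^ 2 * fi ^ 2 * fj ^ 2 * (jij * jiy * jxj * jxy) := by ring
  rw [h4, hm, hi, hj, h2]
  norm_num

theorem not_dvd_d (p : ℕ) (hp : p.Prime) (hp2 : p ≠ 2) (k cc dd u : ℤ) (hk : k = 1 ∨ k = 2)
    (h : cc * dd = k * u) (hu : ¬ (p : ℤ) ∣ u) : ¬ (p : ℤ) ∣ dd := by
  intro hd
  have h1 : (p : ℤ) ∣ k * u := by rw [← h]; exact hd.mul_left cc
  have hpp : Prime (p : ℤ) := Nat.prime_iff_prime_int.1 hp
  rcases hpp.dvd_or_dvd h1 with h2 | h2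
  · rcases hk with rfl | rfl
    · exact hpp.not_isUnit (isUnit_of_dvd_one h2)
    · have h3 : p ∣ 2 := by exact_mod_cast h2
      exact hp2 ((Nat.prime_dvd_prime_iff_eq hp Nat.prime_two).1 h3)
  · exact hu h2

theorem pm_sq {a : ℤ} (h : a = 1 ∨ a = -1) : a ^ 2 = 1 := by
  rcases h with h | h <;> rw [h] <;> norm_num

theorem pm_abs {a : ℤ} (h : a = 1 ∨ a = -1) : |a| ≤ 1 := by
  rcases h with h | h <;> rw [h] <;> norm_num

/-- the inequality at one prime -/
theorem per_prime (hB : ST_BL1) (N q a : ℕ) (S J : Finset ℕ) (e c d : ℕ → ℕ → ℤ) (k : ℤ) (w : ℝ)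
    (m : ℕ → ℤ) (x y p : ℕ) (D : DatR N q a S e c d k w m) (hJ : J ⊆ S) (hx : x ∈ J) (hy : y ∈ J)
    (_hxy : x ≠ y) (hp : p ∈ OP q) (hpd : ¬ (p : ℤ) ∣ d x y) :
    ((Sg J e p 1).card : ℝ) * ((Sg J e p (-1)).card : ℝ) ≤
      2 * ((NQ J d x y).card : ℝ) + 4 * J.card + 2 * (Cl J p).card +
        2 * J.card * ((Cy J x p).card + (Cy J y p).card) +
        Real.sqrt p * (J.card + (Cl J p).card) := by
  classical
  have hpp : p.Prime := Nat.prime_of_mem_primeFactors (mem_of_mem_erase hp)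
  have hp2 : p ≠ 2 := ne_of_mem_erase hp
  obtain ⟨f, lam, mu, hf, hlam, hmu, hchi⟩ := D.dat.chi p hp
  let F : ℕ → ℤ := fun i => if e i p = 1 ∧ i ≠ y then f i * jacobiSym (d i y) p else 0
  let G : ℕ → ℤ := fun j => if e j p = -1 ∧ j ≠ x then f j * jacobiSym (d x j) p else 0
  let kk : ℤ := mu 1 * jacobiSym k p * jacobiSym (d x y) p
  have hF : ∀ n, |F n| ≤ 1 := by
    intro n
    simp only [F]
    split_ifs
    · rw [abs_mul]; exact mul_le_one₀ (pm_abs (hf n)) (abs_nonneg _) (abs_jac _ _)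
    · simp
  have hG : ∀ n, |G n| ≤ 1 := by
    intro n
    simp only [G]
    split_ifs
    · rw [abs_mul]; exact mul_le_one₀ (pm_abs (hf n)) (abs_nonneg _) (abs_jac _ _)
    · simp
  have hkk : |kk| ≤ 1 := by
    simp only [kk]
    rw [abs_mul, abs_mul]
    exact mul_le_one₀ (mul_le_one₀ (pm_abs (hmu 1)) (abs_nonneg _) (abs_jac _ _))
      (abs_nonneg _) (abs_jac _ _)
  let g : ℕ × ℕ → ℤ := fun z => kk * (jacobiSym ((z.1 : ℤ) + -(z.2 : ℤ)) p * F z.1 * G z.2)
  have hg1 : ∀ z, -1 ≤ g z := by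
    intro z
    have h0 : g z = kk * (jacobiSym ((z.1 : ℤ) + -(z.2 : ℤ)) p * F z.1 * G z.2) := rfl
    have h : |g z| ≤ 1 := by
      rw [h0, abs_mul kk, abs_mul (jacobiSym ((z.1 : ℤ) + -(z.2 : ℤ)) p * F z.1) (G z.2),
        abs_mul (jacobiSym ((z.1 : ℤ) + -(z.2 : ℤ)) p) (F z.1)]
      exact mul_le_one₀ hkk (by positivity) (mul_le_one₀ (mul_le_one₀ (abs_jac _ _)
        (abs_nonneg _) (hF _)) (abs_nonneg _) (hG _))
    exact (abs_le.1 h).1
  let Bad : Finset (ℕ × ℕ) := NQ J d x y ∪ Cl J p ∪ (insert y (Cy J y p)) ×ˢ J ∪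
    J ×ˢ (insert x (Cy J x p))
  have key : ∀ z ∈ J ×ˢ J, (if e z.1 p = 1 ∧ e z.2 p = -1 then (1 : ℤ) else 0) -
      2 * (if z ∈ Bad then 1 else 0) ≤ g z := by
    rintro ⟨i, j⟩ hz
    rw [mem_product] at hz
    obtain ⟨hi, hj⟩ := hz
    simp only at hi hj
    by_cases hs : e i p = 1 ∧ e j p = -1
    · by_cases hb : (i, j) ∈ Bad
      · simp only [hs, hb, and_self, if_true]
        have := hg1 (i, j)
        linarith
      · simp only [hs, hb, and_self, if_true, if_false, mul_zero, sub_zero]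
        have hij : i ≠ j := by
          intro h
          rw [h] at hs
          have := hs.1.symm.trans hs.2
          norm_num at this
        simp only [Bad, mem_union, mem_product, mem_insert, not_or, not_and] at hb
        obtain ⟨⟨⟨hb1, hb2⟩, hb3⟩, hb4⟩ := hb
        have hb3' : ¬ i = y ∧ ¬ i ∈ Cy J y p := by
          constructor
          · intro h; exact hb3 (Or.inl h) hj
          · intro h; exact hb3 (Or.inr h) hj
        have hb4' := hb4 hi
        have hdij : ¬ (p : ℤ) ∣ (i : ℤ) - j := by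
          intro h
          apply hb2
          simp only [Cl, mem_filter, mem_product]
          exact ⟨⟨hi, hj⟩, hij, h⟩
        have hdiy : ¬ (p : ℤ) ∣ (i : ℤ) - y := by
          intro h
          apply hb3'.2
          simp only [Cy, mem_filter]
          exact ⟨hi, hb3'.1, h⟩
        have hdjx : ¬ (p : ℤ) ∣ (x : ℤ) - j := by
          intro h
          apply hb4'.2
          simp only [Cy, mem_filter]
          refine ⟨hj, hb4'.1, ?_⟩
          rw [← neg_sub]
          exact h.neg_right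
        have hsqr : IsSquare (d i j * d i y * d x j * d x y) := by
          by_contra hns
          apply hb1
          simp only [NQ, mem_filter, mem_product]
          exact ⟨⟨hi, hj⟩, hij, hb3'.1, fun h => hb4'.1 h.symm, hns⟩
        have e1 := D.dat.cd i (hJ hi) j (hJ hj) hij
        have e2 := D.dat.cd i (hJ hi) y (hJ hy) hb3'.1
        have e3 := D.dat.cd x (hJ hx) j (hJ hj) (fun h => hb4'.1 h.symm)
        have n1 := not_dvd_d p hpp hp2 k _ _ _ D.dat.kap e1 hdij
        have n2 := not_dvd_d p hpp hp2 k _ _ _ D.dat.kap e2 hdiy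
        have n3 := not_dvd_d p hpp hp2 k _ _ _ D.dat.kap e3 hdjx
        have hPr : Prime (p : ℤ) := Nat.prime_iff_prime_int.1 hpp
        have n4 : ¬ (p : ℤ) ∣ d i j * d i y * d x j * d x y := by
          intro h
          rcases hPr.dvd_or_dvd h with h | h
          · rcases hPr.dvd_or_dvd h with h | h
            · rcases hPr.dvd_or_dvd h with h | h
              · exact n1 h
              · exact n2 h
            · exact n3 h
          · exact hpd h
        have j1 := jac_sq p hpp _ hsqr n4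
        rw [jacobiSym.mul_left, jacobiSym.mul_left, jacobiSym.mul_left] at j1
        have j2 : jacobiSym (c i j) p * jacobiSym (d i j) p =
            jacobiSym k p * jacobiSym ((i : ℤ) - j) p := by
          rw [← jacobiSym.mul_left, e1, jacobiSym.mul_left]
        have hne : e i p ≠ e j p := by
          rw [hs.1, hs.2]; norm_num
        have j3 := (hchi i (hJ hi) j (hJ hj) hij).2 hne
        rw [hs.1] at j3
        have hF1 : F i = f i * jacobiSym (d i y) p := by
          simp only [F]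
          rw [if_pos ⟨hs.1, hb3'.1⟩]
        have hG1 : G j = f j * jacobiSym (d x j) p := by
          simp only [G]
          rw [if_pos ⟨hs.2, hb4'.1⟩]
        have j4 := alg (mu 1) (jacobiSym k p) (jacobiSym (d x y) p) (f i) (f j)
          (jacobiSym (d i y) p) (jacobiSym (d x j) p) (jacobiSym (d i j) p)
          (jacobiSym (c i j) p) (jacobiSym ((i : ℤ) - j) p) j3 j2 j1 (pm_sq (hmu 1))
          (pm_sq (hf i)) (pm_sq (hf j))
        simp only [g]
        rw [hF1, hG1, ← sub_eq_add_neg]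
        exact le_of_eq j4.symm
    · have hg0 : g (i, j) = 0 := by
        simp only [g]
        by_cases h1 : e i p = 1
        · have h2 : G j = 0 := by
            simp only [G]
            rw [if_neg]
            intro h
            exact hs ⟨h1, h.1⟩
          rw [h2]; ring
        · have h2 : F i = 0 := by
            simp only [F]
            rw [if_neg]
            intro h
            exact h1 h.1
          rw [h2]; ring
      rw [hg0]
      simp only [hs, if_false, zero_sub]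
      split_ifs <;> norm_num
  have hsum := sum_le_sum key
  rw [sum_sub_distrib, ← mul_sum] at hsum
  have hs1 : ∑ z ∈ J ×ˢ J, (if e z.1 p = 1 ∧ e z.2 p = -1 then (1 : ℤ) else 0) =
      (((Sg J e p 1).card * (Sg J e p (-1)).card : ℕ) : ℤ) := by
    rw [← card_product]
    have h1 : Sg J e p 1 ×ˢ Sg J e p (-1) =
        (J ×ˢ J).filter (fun z => e z.1 p = 1 ∧ e z.2 p = -1) := by
      ext z
      simp only [Sg, mem_product, mem_filter]
      tauto
    rw [h1, card_filter]
    push_cast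
    rfl
  have hs2 : ∑ z ∈ J ×ˢ J, (if z ∈ Bad then (1 : ℤ) else 0) ≤ (Bad.card : ℤ) := by
    have h1 : ∑ z ∈ J ×ˢ J, (if z ∈ Bad then (1 : ℤ) else 0) =
        (((J ×ˢ J).filter (fun z => z ∈ Bad)).card : ℤ) := by
      rw [card_filter]
      push_cast
      rfl
    rw [h1]
    have h2 : ((J ×ˢ J).filter (fun z => z ∈ Bad)).card ≤ Bad.card := by
      apply card_le_card
      intro z hz
      exact (mem_filter.1 hz).2
    exact_mod_cast h2
  have hBad : Bad.card ≤ (NQ J d x y).card + (Cl J p).card + ((Cy J y p).card + 1) * J.card +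
      J.card * ((Cy J x p).card + 1) := by
    calc Bad.card ≤ (NQ J d x y ∪ Cl J p ∪ (insert y (Cy J y p)) ×ˢ J).card +
          (J ×ˢ (insert x (Cy J x p))).card := card_union_le _ _
      _ ≤ (NQ J d x y ∪ Cl J p).card + ((insert y (Cy J y p)) ×ˢ J).card +
          (J ×ˢ (insert x (Cy J x p))).card := by
          gcongr; exact card_union_le _ _
      _ ≤ (NQ J d x y).card + (Cl J p).card + ((insert y (Cy J y p)) ×ˢ J).card +
          (J ×ˢ (insert x (Cy J x p))).card := by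
          gcongr; exact card_union_le _ _
      _ ≤ _ := by
          rw [card_product, card_product]
          gcongr
          · exact card_insert_le _ _
          · exact card_insert_le _ _
  -- upper bound
  let T : ℤ := ∑ i ∈ J, ∑ j ∈ J, jacobiSym ((fun n : ℕ => (n : ℤ)) i + (fun n : ℕ => -(n : ℤ)) j) p *
    F i * G j
  have hT : ∑ z ∈ J ×ˢ J, g z = kk * T := by
    simp only [g, T]
    rw [← mul_sum, sum_product]
  have hbl := hB p J (fun n : ℕ => (n : ℤ)) (fun n : ℕ => -(n : ℤ)) F G hpp hp2 hF hG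
  have hc1 : ((J ×ˢ J).filter (fun x => (p : ℤ) ∣ (fun n : ℕ => (n : ℤ)) x.1 -
      (fun n : ℕ => (n : ℤ)) x.2)).card ≤ J.card + (Cl J p).card := by
    calc _ ≤ (J.image (fun i => (i, i)) ∪ Cl J p).card := by
          apply card_le_card
          intro z hz
          simp only [mem_filter, mem_product] at hz
          rw [mem_union]
          by_cases h : z.1 = z.2
          · left
            rw [mem_image]
            exact ⟨z.1, hz.1.1, by ext <;> simp [h]⟩
          · right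
            simp only [Cl, mem_filter, mem_product]
            exact ⟨hz.1, h, hz.2⟩
      _ ≤ (J.image (fun i => (i, i))).card + (Cl J p).card := card_union_le _ _
      _ ≤ _ := by gcongr; exact card_image_le
  have hc2 : ((J ×ˢ J).filter (fun x => (p : ℤ) ∣ (fun n : ℕ => -(n : ℤ)) x.1 -
      (fun n : ℕ => -(n : ℤ)) x.2)).card ≤ J.card + (Cl J p).card := by
    refine le_trans (card_le_card ?_) hc1
    intro z hz
    simp only [mem_filter, mem_product] at hz ⊢
    refine ⟨hz.1, ?_⟩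
    have h := hz.2.neg_right
    have h2 : -(-(z.1 : ℤ) - -(z.2 : ℤ)) = (z.1 : ℤ) - z.2 := by ring
    rwa [h2] at h
  have hT2 : (T : ℝ) ^ 2 ≤ (Real.sqrt p * (J.card + (Cl J p).card)) ^ 2 := by
    rw [mul_pow, Real.sq_sqrt (by positivity)]
    have h1 : T ^ 2 ≤ (p : ℤ) * ((J.card + (Cl J p).card : ℕ) : ℤ) ^ 2 := by
      refine hbl.trans ?_
      rw [sq, ← mul_assoc]
      gcongr
    have h2 : ((T ^ 2 : ℤ) : ℝ) ≤ (((p : ℤ) * ((J.card + (Cl J p).card : ℕ) : ℤ) ^ 2 : ℤ) : ℝ) := by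
      exact_mod_cast h1
    push_cast at h2
    exact h2
  have hT3 : |(T : ℝ)| ≤ Real.sqrt p * (J.card + (Cl J p).card) :=
    abs_le_of_sq_le_sq hT2 (by positivity)
  have hT4 : (kk : ℝ) * T ≤ Real.sqrt p * (J.card + (Cl J p).card) := by
    have h1 : |(kk : ℝ)| ≤ 1 := by exact_mod_cast hkk
    calc (kk : ℝ) * T ≤ |(kk : ℝ) * T| := le_abs_self _
      _ = |(kk : ℝ)| * |(T : ℝ)| := abs_mul _ _
      _ ≤ 1 * (Real.sqrt p * (J.card + (Cl J p).card)) := by gcongr
      _ = _ := one_mul _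
  rw [hs1, hT] at hsum
  have h5 : (((Sg J e p 1).card * (Sg J e p (-1)).card : ℕ) : ℤ) ≤ kk * T + 2 * (Bad.card : ℤ) := by
    linarith
  have h6 : (((Sg J e p 1).card : ℝ) * ((Sg J e p (-1)).card : ℝ)) ≤ kk * T + 2 * (Bad.card : ℝ) := by
    exact_mod_cast h5
  have h7 : (Bad.card : ℝ) ≤ (NQ J d x y).card + (Cl J p).card + ((Cy J y p).card + 1) * J.card +
      J.card * ((Cy J x p).card + 1) := by exact_mod_cast hBad
  nlinarith [h6, h7, hT4]

theorem sum_Cl (J Q : Finset ℕ) (N : ℕ) (hQ : ∀ p ∈ Q, p.Prime) (hJ : J ⊆ range N) :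
    (∑ p ∈ Q, ((Cl J p).card : ℝ)) * Real.log 2 ≤ (J.card : ℝ) ^ 2 * Real.log N := by
  have h1 : ∀ p, ((Cl J p).card : ℝ) =
      ∑ z ∈ J ×ˢ J, (if z.1 ≠ z.2 ∧ (p : ℤ) ∣ (z.1 : ℤ) - z.2 then (1 : ℝ) else 0) := by
    intro p
    rw [Cl, card_filter]
    push_cast
    rfl
  have h2 : ∑ p ∈ Q, ((Cl J p).card : ℝ) = ∑ z ∈ J ×ˢ J, ∑ p ∈ Q,
      (if z.1 ≠ z.2 ∧ (p : ℤ) ∣ (z.1 : ℤ) - z.2 then (1 : ℝ) else 0) := by
    rw [sum_congr rfl (fun p _ => h1 p), sum_comm]
  rw [h2, sum_mul]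
  calc ∑ z ∈ J ×ˢ J, (∑ p ∈ Q,
      (if z.1 ≠ z.2 ∧ (p : ℤ) ∣ (z.1 : ℤ) - z.2 then (1 : ℝ) else 0)) * Real.log 2
      ≤ ∑ z ∈ J ×ˢ J, Real.log N := by
        apply sum_le_sum
        intro z hz
        rw [mem_product] at hz
        have hz1 := mem_range.1 (hJ hz.1)
        have hz2 := mem_range.1 (hJ hz.2)
        by_cases h : z.1 = z.2
        · have h3 : ∑ p ∈ Q, (if z.1 ≠ z.2 ∧ (p : ℤ) ∣ (z.1 : ℤ) - z.2 then (1 : ℝ) else 0) = 0 := by
            apply sum_eq_zero
            intro p _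
            rw [if_neg]
            intro h4
            exact h4.1 h
          rw [h3, zero_mul]
          exact Real.log_natCast_nonneg N
        · have h3 : ∑ p ∈ Q, (if z.1 ≠ z.2 ∧ (p : ℤ) ∣ (z.1 : ℤ) - z.2 then (1 : ℝ) else 0) =
              ((Q.filter (fun p : ℕ => (p : ℤ) ∣ (z.1 : ℤ) - z.2)).card : ℝ) := by
            rw [card_filter]
            push_cast
            apply sum_congr rfl
            intro p _
            simp only [ne_eq, h, not_false_eq_true, true_and]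
          rw [h3]
          apply count_real Q hQ
          · intro h4
            apply h
            omega
          · rw [abs_le]
            push_cast
            have h5 : (z.1 : ℝ) < N := by exact_mod_cast hz1
            have h6 : (z.2 : ℝ) < N := by exact_mod_cast hz2
            have h7 : (0 : ℝ) ≤ z.1 := by positivity
            have h8 : (0 : ℝ) ≤ z.2 := by positivity
            constructor <;> linarith
    _ = (J.card : ℝ) ^ 2 * Real.log N := by
        rw [sum_const, nsmul_eq_mul, card_product]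
        push_cast
        ring

theorem sum_Cy (J Q : Finset ℕ) (N y : ℕ) (hQ : ∀ p ∈ Q, p.Prime) (hJ : J ⊆ range N)
    (hy : y < N) :
    (∑ p ∈ Q, ((Cy J y p).card : ℝ)) * Real.log 2 ≤ (J.card : ℝ) * Real.log N := by
  have h1 : ∀ p, ((Cy J y p).card : ℝ) =
      ∑ i ∈ J, (if i ≠ y ∧ (p : ℤ) ∣ (i : ℤ) - y then (1 : ℝ) else 0) := by
    intro p
    rw [Cy, card_filter]
    push_cast
    rfl
  have h2 : ∑ p ∈ Q, ((Cy J y p).card : ℝ) = ∑ i ∈ J, ∑ p ∈ Q,
      (if i ≠ y ∧ (p : ℤ) ∣ (i : ℤ) - y then (1 : ℝ) else 0) := by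
    rw [sum_congr rfl (fun p _ => h1 p), sum_comm]
  rw [h2, sum_mul]
  calc ∑ i ∈ J, (∑ p ∈ Q,
      (if i ≠ y ∧ (p : ℤ) ∣ (i : ℤ) - y then (1 : ℝ) else 0)) * Real.log 2
      ≤ ∑ i ∈ J, Real.log N := by
        apply sum_le_sum
        intro i hi
        have hz1 := mem_range.1 (hJ hi)
        by_cases h : i = y
        · have h3 : ∑ p ∈ Q, (if i ≠ y ∧ (p : ℤ) ∣ (i : ℤ) - y then (1 : ℝ) else 0) = 0 := by
            apply sum_eq_zero
            intro p _
            rw [if_neg]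
            intro h4
            exact h4.1 h
          rw [h3, zero_mul]
          exact Real.log_natCast_nonneg N
        · have h3 : ∑ p ∈ Q, (if i ≠ y ∧ (p : ℤ) ∣ (i : ℤ) - y then (1 : ℝ) else 0) =
              ((Q.filter (fun p : ℕ => (p : ℤ) ∣ (i : ℤ) - y)).card : ℝ) := by
            rw [card_filter]
            push_cast
            apply sum_congr rfl
            intro p _
            simp only [ne_eq, h, not_false_eq_true, true_and]
          rw [h3]
          apply count_real Q hQ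
          · intro h4
            apply h
            omega
          · rw [abs_le]
            push_cast
            have h5 : (i : ℝ) < N := by exact_mod_cast hz1
            have h6 : (y : ℝ) < N := by exact_mod_cast hy
            have h7 : (0 : ℝ) ≤ i := by positivity
            have h8 : (0 : ℝ) ≤ y := by positivity
            constructor <;> linarith
    _ = (J.card : ℝ) * Real.log N := by
        rw [sum_const, nsmul_eq_mul]

/-- the final inequality: `P = #Q`, `A = |J|`, `s = √Z`, `u = log 2`, `l = log N` -/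
theorem final (P A s r xi nq u l c1 cx cy : ℝ) (hP : 0 ≤ P) (hA : 0 < A) (hs : 1 ≤ s)
    (hr : 0 < r) (hl : 0 ≤ l) (hu : 0.69 ≤ u)
    (h1 : r * A ^ 2 * P ≤ (2 * nq + 4 * A + s * A) * P + (2 + s) * c1 + 2 * A * (cx + cy))
    (hnq : nq ≤ xi * A ^ 2) (hxi : 16 * xi ≤ r) (hA1 : 100 ≤ r * A) (hA2 : 8 * s ≤ r * A)
    (hc1 : c1 * u ≤ A ^ 2 * l) (hcx : cx * u ≤ A * l) (hcy : cy * u ≤ A * l) :
    r * P ≤ 20 * s * l := by
  have h2 : 2 * nq + 4 * A + s * A ≤ (29 / 100) * (r * A ^ 2) := by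
    have h3 : 2 * nq ≤ (1 / 8) * (r * A ^ 2) := by
      have h4 : xi * A ^ 2 ≤ (r / 16) * A ^ 2 := by
        apply mul_le_mul_of_nonneg_right _ (by positivity)
        linarith
      nlinarith
    have h4 : 4 * A ≤ (1 / 25) * (r * A ^ 2) := by nlinarith
    have h5 : s * A ≤ (1 / 8) * (r * A ^ 2) := by nlinarith
    linarith
  have h3 : (2 * nq + 4 * A + s * A) * P ≤ (29 / 100) * (r * A ^ 2) * P :=
    mul_le_mul_of_nonneg_right h2 hP
  have h4 : (71 / 100) * (r * A ^ 2 * P) ≤ (2 + s) * c1 + 2 * A * (cx + cy) := by linarith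
  have h5 : (71 / 100) * (r * A ^ 2 * P) * u ≤ (2 + s) * (A ^ 2 * l) + 4 * A * (A * l) := by
    calc (71 / 100) * (r * A ^ 2 * P) * u ≤ ((2 + s) * c1 + 2 * A * (cx + cy)) * u :=
          mul_le_mul_of_nonneg_right h4 (by linarith)
      _ = (2 + s) * (c1 * u) + 2 * A * (cx * u) + 2 * A * (cy * u) := by ring
      _ ≤ (2 + s) * (A ^ 2 * l) + 2 * A * (A * l) + 2 * A * (A * l) := by
          gcongr
      _ = _ := by ring
  have h6 : (71 / 100) * (r * P) * u * A ^ 2 ≤ ((6 + s) * l) * A ^ 2 := by nlinarith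
  have h7 : (71 / 100) * (r * P) * u ≤ (6 + s) * l :=
    le_of_mul_le_mul_right h6 (by positivity)
  have h8 : (6 + s) * l ≤ 7 * s * l := by
    apply mul_le_mul_of_nonneg_right _ hl
    linarith
  have h9 : (71 / 100) * (r * P) * 0.69 ≤ (71 / 100) * (r * P) * u := by
    apply mul_le_mul_of_nonneg_left hu
    positivity
  nlinarith

theorem st_SP2 (h1 : ST_BL1) : ST_SP2 := by
  classical
  intro N q a Z S J e c d k w xi r m x y hN hq hZ D hJ hx hy hxy hNQ hr hxi hA1 hA2
  have hlN : 0 ≤ Real.log N := Real.log_natCast_nonneg N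
  by_cases hemp : (SPL q Z J e r) = ∅
  · rw [hemp]
    simp only [card_empty, Nat.cast_zero]
    positivity
  have hAne : J.Nonempty := ⟨x, hx⟩
  have hA : (0 : ℝ) < J.card := by exact_mod_cast card_pos.2 hAne
  have hJN : J ⊆ range N := hJ.trans D.dat.sub
  -- `r ≤ 1`
  have hr1 : r ≤ 1 := by
    obtain ⟨p, hp⟩ := nonempty_iff_ne_empty.2 hemp
    have hp2 := (mem_filter.1 hp).2
    have h2 : ((Sg J e p 1).card : ℝ) ≤ J.card := by exact_mod_cast card_filter_le _ _
    have h3 : ((Sg J e p (-1)).card : ℝ) ≤ J.card := by exact_mod_cast card_filter_le _ _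
    have h4 : r * (J.card : ℝ) ^ 2 ≤ 1 * (J.card : ℝ) ^ 2 := by
      calc r * (J.card : ℝ) ^ 2 ≤ ((Sg J e p 1).card : ℝ) * ((Sg J e p (-1)).card : ℝ) := hp2
        _ ≤ (J.card : ℝ) * J.card := by gcongr
        _ = 1 * (J.card : ℝ) ^ 2 := by ring
    exact le_of_mul_le_mul_right h4 (by positivity)
  have hs : 1 ≤ Real.sqrt Z := by
    rw [Real.one_le_sqrt]
    exact_mod_cast hZ
  have hlog2 : (0.6931 : ℝ) < Real.log 2 := by
    have := Real.log_two_gt_d9
    linarith
  have hprime : ∀ p ∈ SPL q Z J e r, p.Prime := by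
    intro p hp
    have h2 := (mem_filter.1 hp).1
    have h3 := (mem_filter.1 h2).1
    exact Nat.prime_of_mem_primeFactors (mem_of_mem_erase h3)
  let Q := (SPL q Z J e r).filter (fun p : ℕ => ¬ (p : ℤ) ∣ d x y)
  have hQprime : ∀ p ∈ Q, p.Prime := fun p hp => hprime p (mem_filter.1 hp).1
  have hcard : ((SPL q Z J e r).card : ℝ) =
      (((SPL q Z J e r).filter (fun p : ℕ => (p : ℤ) ∣ d x y)).card : ℝ) + (Q.card : ℝ) := by
    rw [← card_filter_add_card_filter_not (s := SPL q Z J e r) (fun p : ℕ => (p : ℤ) ∣ d x y)]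
    push_cast
    rfl
  -- the primes dividing `d x y`
  have hd1 := D.pos x (hJ hx) y (hJ hy) hxy
  have hd2 : |((d x y : ℤ) : ℝ)| ≤ 2 * N := by
    have e1 := D.dat.cd x (hJ hx) y (hJ hy) hxy
    have hxN := mem_range.1 (hJN hx)
    have hyN := mem_range.1 (hJN hy)
    have hc : c x y ≠ 0 := by
      intro h
      rw [h, zero_mul] at e1
      rcases D.dat.kap with hk | hk <;> rw [hk] at e1 <;> omega
    have h2 : |d x y| ≤ |c x y * d x y| := by
      rw [abs_mul]
      exact le_mul_of_one_le_left (abs_nonneg _) (Int.one_le_abs hc)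
    have h3 : |c x y * d x y| ≤ 2 * N := by
      rw [e1, abs_le]
      rcases D.dat.kap with hk | hk <;> rw [hk] <;> constructor <;> omega
    exact_mod_cast h2.trans h3
  have hdv := count_real (SPL q Z J e r) hprime (d x y) (by omega) (2 * N) hd2
  rw [Real.log_mul (by norm_num) (by positivity)] at hdv
  -- sum over the primes of `Q`
  have hper : ∀ p ∈ Q, r * (J.card : ℝ) ^ 2 ≤ (2 * ((NQ J d x y).card : ℝ) + 4 * J.card +
      Real.sqrt Z * J.card) + (2 + Real.sqrt Z) * ((Cl J p).card : ℝ) +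
      2 * J.card * ((Cy J x p).card + (Cy J y p).card) := by
    intro p hp
    have h2 := mem_filter.1 hp
    have h3 := mem_filter.1 h2.1
    have h4 := mem_filter.1 h3.1
    have h5 := per_prime h1 N q a S J e c d k w m x y p D hJ hx hy hxy h4.1 h2.2
    have h6 : Real.sqrt p ≤ Real.sqrt Z := Real.sqrt_le_sqrt (by exact_mod_cast h4.2)
    have h7 : Real.sqrt p * (J.card + (Cl J p).card) ≤
        Real.sqrt Z * ((J.card : ℝ) + (Cl J p).card) := by gcongr
    have h8 := h3.2
    linarith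
  have hsum := sum_le_sum hper
  rw [sum_const, nsmul_eq_mul, sum_add_distrib, sum_add_distrib, sum_const, nsmul_eq_mul,
    ← mul_sum, ← mul_sum, sum_add_distrib] at hsum
  have hc1 := sum_Cl J Q N hQprime hJN
  have hcx := sum_Cy J Q N x hQprime hJN (mem_range.1 (hJN hx))
  have hcy := sum_Cy J Q N y hQprime hJN (mem_range.1 (hJN hy))
  have hfin := final (Q.card : ℝ) (J.card : ℝ) (Real.sqrt Z) r xi ((NQ J d x y).card : ℝ)
    (Real.log 2) (Real.log N) (∑ p ∈ Q, ((Cl J p).card : ℝ)) (∑ p ∈ Q, ((Cy J x p).card : ℝ))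
    (∑ p ∈ Q, ((Cy J y p).card : ℝ)) (by positivity) hA hs hr hlN (by linarith) (by linarith)
    hNQ hxi hA1 hA2 hc1 hcx hcy
  rw [le_div_iff₀ hr, hcard, add_mul]
  have h9 : (((SPL q Z J e r).filter (fun p : ℕ => (p : ℤ) ∣ d x y)).card : ℝ) * r ≤
      2 * (1 + Real.log N) := by
    have h10 : (((SPL q Z J e r).filter (fun p : ℕ => (p : ℤ) ∣ d x y)).card : ℝ) ≤
        2 * (1 + Real.log N) := by
      have hlog2' : Real.log 2 < 0.6932 := by
        have := Real.log_two_lt_d9
        linarith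
      have h11 : (0 : ℝ) ≤
        (((SPL q Z J e r).filter (fun p : ℕ => (p : ℤ) ∣ d x y)).card : ℝ) := by positivity
      nlinarith
    have h11 : (0 : ℝ) ≤
        (((SPL q Z J e r).filter (fun p : ℕ => (p : ℤ) ∣ d x y)).card : ℝ) := by positivity
    nlinarith
  have h10 : 2 * (1 + Real.log N) ≤ 2 * (1 + Real.log N) * Real.sqrt Z :=
    le_mul_of_one_le_right (by positivity) hs
  have h11 : 0 ≤ Real.log N * Real.sqrt Z := by positivity
  nlinarith

end Pool.Agent.Helper41.RD8
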