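import Pool.Agent.Helper41.RD8.SP2
import Pool.Agent.Helper97.RD8.Stmts11

/-! Row FS4 of project RD (T4): the fourth moment at a split prime of `q`. -/

set_option autoImplicit false

namespace Pool.Agent.Helper41.RD8

open Finset Pool.Agent.Helper18.RD Pool.Agent.Helper19.RD Pool.Agent.Helper97.RD8

/-- lower bound for the bilinear sum at one prime -/
theorem low_prime (N q a : ℕ) (S J : Finset ℕ) (e c d : ℕ → ℕ → ℤ) (k : ℤ) (w : ℝ)
    (m : ℕ → ℤ) (x y p : ℕ) (D : DatR N q a S e c d k w m) (hJ : J ⊆ S) (hx : x ∈ J) (hy : y ∈ J)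
    (hp : p ∈ OP q) (hpd : ¬ (p : ℤ) ∣ d x y) :
    ∃ F G : ℕ → ℤ, (∀ n, |F n| ≤ 1) ∧ (∀ n, |G n| ≤ 1) ∧ ∃ kk : ℤ, |kk| ≤ 1 ∧
      (((Sg J e p 1).card * (Sg J e p (-1)).card : ℕ) : ℤ) ≤
        kk * (∑ i ∈ J, ∑ j ∈ J, jacobiSym (df i j) p * F i * G j) +
        2 * (((NQ J d x y).card + (Cl J p).card + ((Cy J y p).card + 1) * J.card +
          J.card * ((Cy J x p).card + 1) : ℕ) : ℤ) := by
  classical
  have hpp : p.Prime := Nat.prime_of_mem_primeFactors (mem_of_mem_erase hp)
  have hp2 : p ≠ 2 := ne_of_mem_erase hp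
  obtain ⟨f, lam, mu, hf, hlam, hmu, hchi⟩ := D.dat.chi p hp
  let F : ℕ → ℤ := fun i => if e i p = 1 ∧ i ≠ y then f i * jacobiSym (d i y) p else 0
  let G : ℕ → ℤ := fun j => if e j p = -1 ∧ j ≠ x then f j * jacobiSym (d x j) p else 0
  let kk : ℤ := mu 1 * jacobiSym k p * jacobiSym (d x y) p
  have hF : ∀ n, |F n| ≤ 1 := by
    intro n
    simp only [F]
    split_ifs
    · rw [abs_mul]; exact mul_le_one₀ (pm_abs (hf n)) (abs_nonneg _) (abs_jac _ _)
    · simp
  have hG : ∀ n, |G n| ≤ 1 := by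
    intro n
    simp only [G]
    split_ifs
    · rw [abs_mul]; exact mul_le_one₀ (pm_abs (hf n)) (abs_nonneg _) (abs_jac _ _)
    · simp
  have hkk : |kk| ≤ 1 := by
    simp only [kk]
    rw [abs_mul, abs_mul]
    exact mul_le_one₀ (mul_le_one₀ (pm_abs (hmu 1)) (abs_nonneg _) (abs_jac _ _))
      (abs_nonneg _) (abs_jac _ _)
  refine ⟨F, G, hF, hG, kk, hkk, ?_⟩
  let g : ℕ × ℕ → ℤ := fun z => kk * (jacobiSym (df z.1 z.2) p * F z.1 * G z.2)
  have hg1 : ∀ z, -1 ≤ g z := by
    intro z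
    have h0 : g z = kk * (jacobiSym (df z.1 z.2) p * F z.1 * G z.2) := rfl
    have h : |g z| ≤ 1 := by
      rw [h0, abs_mul kk, abs_mul (jacobiSym (df z.1 z.2) p * F z.1) (G z.2),
        abs_mul (jacobiSym (df z.1 z.2) p) (F z.1)]
      exact mul_le_one₀ hkk (by positivity) (mul_le_one₀ (mul_le_one₀ (abs_jac _ _)
        (abs_nonneg _) (hF _)) (abs_nonneg _) (hG _))
    exact (abs_le.1 h).1
  let Bad : Finset (ℕ × ℕ) := NQ J d x y ∪ Cl J p ∪ (insert y (Cy J y p)) ×ˢ J ∪
    J ×ˢ (insert x (Cy J x p))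
  have key : ∀ z ∈ J ×ˢ J, (if e z.1 p = 1 ∧ e z.2 p = -1 then (1 : ℤ) else 0) -
      2 * (if z ∈ Bad then 1 else 0) ≤ g z := by
    rintro ⟨i, j⟩ hz
    rw [mem_product] at hz
    obtain ⟨hi, hj⟩ := hz
    simp only at hi hj
    by_cases hs : e i p = 1 ∧ e j p = -1
    · by_cases hb : (i, j) ∈ Bad
      · simp only [hs, hb, and_self, if_true]
        have := hg1 (i, j)
        linarith
      · simp only [hs, hb, and_self, if_true, if_false, mul_zero, sub_zero]
        have hij : i ≠ j := by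
          intro h
          rw [h] at hs
          have := hs.1.symm.trans hs.2
          norm_num at this
        simp only [Bad, mem_union, mem_product, mem_insert, not_or, not_and] at hb
        obtain ⟨⟨⟨hb1, hb2⟩, hb3⟩, hb4⟩ := hb
        have hb3' : ¬ i = y ∧ ¬ i ∈ Cy J y p := by
          constructor
          · intro h; exact hb3 (Or.inl h) hj
          · intro h; exact hb3 (Or.inr h) hj
        have hb4' := hb4 hi
        have hdij : ¬ (p : ℤ) ∣ (i : ℤ) - j := by
          intro h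
          apply hb2
          simp only [Cl, mem_filter, mem_product]
          exact ⟨⟨hi, hj⟩, hij, h⟩
        have hdiy : ¬ (p : ℤ) ∣ (i : ℤ) - y := by
          intro h
          apply hb3'.2
          simp only [Cy, mem_filter]
          exact ⟨hi, hb3'.1, h⟩
        have hdjx : ¬ (p : ℤ) ∣ (x : ℤ) - j := by
          intro h
          apply hb4'.2
          simp only [Cy, mem_filter]
          refine ⟨hj, hb4'.1, ?_⟩
          rw [← neg_sub]
          exact h.neg_right
        have hsqr : IsSquare (d i j * d i y * d x j * d x y) := by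
          by_contra hns
          apply hb1
          simp only [NQ, mem_filter, mem_product]
          exact ⟨⟨hi, hj⟩, hij, hb3'.1, fun h => hb4'.1 h.symm, hns⟩
        have e1 := D.dat.cd i (hJ hi) j (hJ hj) hij
        have e2 := D.dat.cd i (hJ hi) y (hJ hy) hb3'.1
        have e3 := D.dat.cd x (hJ hx) j (hJ hj) (fun h => hb4'.1 h.symm)
        have n1 := not_dvd_d p hpp hp2 k _ _ _ D.dat.kap e1 hdij
        have n2 := not_dvd_d p hpp hp2 k _ _ _ D.dat.kap e2 hdiy
        have n3 := not_dvd_d p hpp hp2 k _ _ _ D.dat.kap e3 hdjx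
        have hPr : Prime (p : ℤ) := Nat.prime_iff_prime_int.1 hpp
        have n4 : ¬ (p : ℤ) ∣ d i j * d i y * d x j * d x y := by
          intro h
          rcases hPr.dvd_or_dvd h with h | h
          · rcases hPr.dvd_or_dvd h with h | h
            · rcases hPr.dvd_or_dvd h with h | h
              · exact n1 h
              · exact n2 h
            · exact n3 h
          · exact hpd h
        have j1 := jac_sq p hpp _ hsqr n4
        rw [jacobiSym.mul_left, jacobiSym.mul_left, jacobiSym.mul_left] at j1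
        have j2 : jacobiSym (c i j) p * jacobiSym (d i j) p =
            jacobiSym k p * jacobiSym ((i : ℤ) - j) p := by
          rw [← jacobiSym.mul_left, e1, jacobiSym.mul_left]
        have hne : e i p ≠ e j p := by
          rw [hs.1, hs.2]; norm_num
        have j3 := (hchi i (hJ hi) j (hJ hj) hij).2 hne
        rw [hs.1] at j3
        have hF1 : F i = f i * jacobiSym (d i y) p := by
          simp only [F]
          rw [if_pos ⟨hs.1, hb3'.1⟩]
        have hG1 : G j = f j * jacobiSym (d x j) p := by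
          simp only [G]
          rw [if_pos ⟨hs.2, hb4'.1⟩]
        have j4 := alg (mu 1) (jacobiSym k p) (jacobiSym (d x y) p) (f i) (f j)
          (jacobiSym (d i y) p) (jacobiSym (d x j) p) (jacobiSym (d i j) p)
          (jacobiSym (c i j) p) (jacobiSym ((i : ℤ) - j) p) j3 j2 j1 (pm_sq (hmu 1))
          (pm_sq (hf i)) (pm_sq (hf j))
        have hg2 : g (i, j) = mu 1 * jacobiSym k p * jacobiSym (d x y) p *
            (jacobiSym ((i : ℤ) - j) p * F i * G j) := rfl
        rw [hg2, hF1, hG1]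
        exact le_of_eq j4.symm
    · have hg0 : g (i, j) = 0 := by
        simp only [g]
        by_cases h1 : e i p = 1
        · have h2 : G j = 0 := by
            simp only [G]
            rw [if_neg]
            intro h
            exact hs ⟨h1, h.1⟩
          rw [h2]; ring
        · have h2 : F i = 0 := by
            simp only [F]
            rw [if_neg]
            intro h
            exact h1 h.1
          rw [h2]; ring
      rw [hg0]
      simp only [hs, if_false, zero_sub]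
      split_ifs <;> norm_num
  have hsum := sum_le_sum key
  rw [sum_sub_distrib, ← mul_sum] at hsum
  have hs1 : ∑ z ∈ J ×ˢ J, (if e z.1 p = 1 ∧ e z.2 p = -1 then (1 : ℤ) else 0) =
      (((Sg J e p 1).card * (Sg J e p (-1)).card : ℕ) : ℤ) := by
    rw [← card_product]
    have h1 : Sg J e p 1 ×ˢ Sg J e p (-1) =
        (J ×ˢ J).filter (fun z => e z.1 p = 1 ∧ e z.2 p = -1) := by
      ext z
      simp only [Sg, mem_product, mem_filter]
      tauto
    rw [h1, card_filter]
    push_cast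
    rfl
  have hs2 : ∑ z ∈ J ×ˢ J, (if z ∈ Bad then (1 : ℤ) else 0) ≤ (Bad.card : ℤ) := by
    have h1 : ∑ z ∈ J ×ˢ J, (if z ∈ Bad then (1 : ℤ) else 0) =
        (((J ×ˢ J).filter (fun z => z ∈ Bad)).card : ℤ) := by
      rw [card_filter]
      push_cast
      rfl
    rw [h1]
    have h2 : ((J ×ˢ J).filter (fun z => z ∈ Bad)).card ≤ Bad.card := by
      apply card_le_card
      intro z hz
      exact (mem_filter.1 hz).2
    exact_mod_cast h2
  have hBad : Bad.card ≤ (NQ J d x y).card + (Cl J p).card + ((Cy J y p).card + 1) * J.card +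
      J.card * ((Cy J x p).card + 1) := by
    calc Bad.card ≤ (NQ J d x y ∪ Cl J p ∪ (insert y (Cy J y p)) ×ˢ J).card +
          (J ×ˢ (insert x (Cy J x p))).card := card_union_le _ _
      _ ≤ (NQ J d x y ∪ Cl J p).card + ((insert y (Cy J y p)) ×ˢ J).card +
          (J ×ˢ (insert x (Cy J x p))).card := by
          gcongr; exact card_union_le _ _
      _ ≤ (NQ J d x y).card + (Cl J p).card + ((insert y (Cy J y p)) ×ˢ J).card +
          (J ×ˢ (insert x (Cy J x p))).card := by
          gcongr; exact card_union_le _ _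
      _ ≤ _ := by
          rw [card_product, card_product]
          gcongr
          · exact card_insert_le _ _
          · exact card_insert_le _ _
  have hT : ∑ z ∈ J ×ˢ J, g z = kk * ∑ i ∈ J, ∑ j ∈ J, jacobiSym (df i j) p * F i * G j := by
    simp only [g]
    rw [← mul_sum, sum_product]
  rw [hs1, hT] at hsum
  have h7 : (Bad.card : ℤ) ≤ (((NQ J d x y).card + (Cl J p).card +
      ((Cy J y p).card + 1) * J.card + J.card * ((Cy J x p).card + 1) : ℕ) : ℤ) := by
    exact_mod_cast hBad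
  linarith

theorem not_dvd_small (p : ℕ) (u : ℤ) (hu : u ≠ 0) (h : |u| < p) : ¬ (p : ℤ) ∣ u := by
  intro hd
  have h1 := Int.le_of_dvd (abs_pos.2 hu) ((dvd_abs _ _).2 hd)
  omega

theorem final4 (r xi A nq B T X : ℝ) (hr : 0 < r) (hA : 0 < A) (hxi : 16 * xi ≤ r)
    (hA1 : 100 ≤ r * A) (hnq : nq ≤ xi * A ^ 2) (hB : r * A ^ 2 ≤ B)
    (hT : B ≤ |T| + 2 * (nq + 2 * A)) (h4 : T ^ 4 ≤ A ^ 4 * X) :
    r ^ 4 / 16 * A ^ 4 ≤ X := by
  have h1 : 2 * nq ≤ (1 / 8) * (r * A ^ 2) := by
    have h4 : xi * A ^ 2 ≤ (r / 16) * A ^ 2 := by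
      apply mul_le_mul_of_nonneg_right _ (by positivity)
      linarith
    nlinarith
  have h2 : 4 * A ≤ (1 / 25) * (r * A ^ 2) := by nlinarith
  have h3 : (1 / 2) * (r * A ^ 2) ≤ |T| := by
    have : 0 < r * A ^ 2 := by positivity
    linarith
  have h5 : ((1 / 2) * (r * A ^ 2)) ^ 4 ≤ |T| ^ 4 := pow_le_pow_left₀ (by positivity) h3 4
  have h6 : |T| ^ 4 = T ^ 4 := by
    have : |T| ^ 4 = (|T| ^ 2) ^ 2 := by ring
    rw [this, sq_abs]
    ring
  have h7 : A ^ 4 * (r ^ 4 / 16 * A ^ 4) ≤ A ^ 4 * X := by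
    calc A ^ 4 * (r ^ 4 / 16 * A ^ 4) = ((1 / 2) * (r * A ^ 2)) ^ 4 := by ring
      _ ≤ |T| ^ 4 := h5
      _ = T ^ 4 := h6
      _ ≤ A ^ 4 * X := h4
  exact le_of_mul_le_mul_left h7 (by positivity)

theorem st_FS4 (h : ST_SQC) : ST_FS4 := by
  classical
  intro N q a S J e c d k w xi r m x y p D hJ hx hy hxy hNQ hr hxi hA1 hp hpN hsplit
  have hpp : p.Prime := Nat.prime_of_mem_primeFactors (mem_of_mem_erase hp)
  have hJN : J ⊆ range N := hJ.trans D.dat.sub
  have hA : (0 : ℝ) < J.card := by exact_mod_cast card_pos.2 ⟨x, hx⟩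
  have hdif : ∀ i ∈ J, ∀ j ∈ J, i ≠ j → ¬ (p : ℤ) ∣ (i : ℤ) - j := by
    intro i hi j hj hij
    have hi' := mem_range.1 (hJN hi)
    have hj' := mem_range.1 (hJN hj)
    apply not_dvd_small
    · omega
    · rw [abs_lt]
      constructor <;> omega
  have hdxy : ¬ (p : ℤ) ∣ d x y := by
    have hp2 : p ≠ 2 := ne_of_mem_erase hp
    exact not_dvd_d p hpp hp2 k _ _ _ D.dat.kap (D.dat.cd x (hJ hx) y (hJ hy) hxy)
      (hdif x hx y hy hxy)
  obtain ⟨F, G, hF, hG, kk, hkk, hlow⟩ := low_prime N q a S J e c d k w m x y p D hJ hx hy hp hdxy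
  have c1 : (Cl J p).card = 0 := by
    rw [card_eq_zero, Cl, filter_eq_empty_iff]
    rintro ⟨i, j⟩ hz ⟨h1, h2⟩
    rw [mem_product] at hz
    exact hdif i hz.1 j hz.2 h1 h2
  have c2 : ∀ u ∈ J, (Cy J u p).card = 0 := by
    intro u hu
    rw [card_eq_zero, Cy, filter_eq_empty_iff]
    rintro i hi ⟨h1, h2⟩
    exact hdif i hi u hu h1 h2
  rw [c1, c2 x hx, c2 y hy] at hlow
  have hsq := h J (fun i j => jacobiSym (df i j) p) F G hF hG (by
    intro i
    have h0 : df i i = 0 := by simp [df]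
    rw [h0]
    exact jacobiSym.zero_left hpp.one_lt)
  have hcyc : ∀ t, cyc (fun i j => jacobiSym (df i j) p) t = jacobiSym (cyc df t) p := by
    intro t
    simp only [cyc]
    rw [jacobiSym.mul_left, jacobiSym.mul_left, jacobiSym.mul_left]
  simp only [hcyc] at hsq
  set T : ℤ := ∑ i ∈ J, ∑ j ∈ J, jacobiSym (df i j) p * F i * G j with hTdef
  have hlow2 : ((Sg J e p 1).card : ℝ) * ((Sg J e p (-1)).card : ℝ) ≤
      |(T : ℝ)| + 2 * (((NQ J d x y).card : ℝ) + 2 * J.card) := by
    have h1 : kk * T ≤ |T| := by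
      calc kk * T ≤ |kk * T| := le_abs_self _
        _ = |kk| * |T| := abs_mul _ _
        _ ≤ 1 * |T| := mul_le_mul_of_nonneg_right hkk (abs_nonneg _)
        _ = |T| := one_mul _
    have h2 := hlow.trans (add_le_add_left h1 _)
    have h3 : (((((Sg J e p 1).card * (Sg J e p (-1)).card : ℕ) : ℤ)) : ℝ) ≤
        ((|T| + 2 * (((NQ J d x y).card + 0 + (0 + 1) * J.card + J.card * (0 + 1) : ℕ) : ℤ) : ℤ) : ℝ) := by
      exact_mod_cast h2
    push_cast at h3
    linarith
  have hsq2 : (T : ℝ) ^ 4 ≤ (J.card : ℝ) ^ 4 * ∑ t ∈ T4 J, (jacobiSym (cyc df t) p : ℝ) := by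
    have h1 : ((T ^ 4 : ℤ) : ℝ) ≤ (((J.card : ℤ) ^ 4 * ∑ t ∈ T4 J, jacobiSym (cyc df t) p : ℤ) : ℝ) := by
      exact_mod_cast hsq
    push_cast at h1
    exact h1
  exact final4 r xi (J.card : ℝ) ((NQ J d x y).card : ℝ) _ (T : ℝ) _ hr hA hxi hA1 hNQ hsplit
    hlow2 hsq2

end Pool.Agent.Helper41.RD8
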